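import Mathlib
import Pool.Agent.Q64.HS.Final

/-! # MP_e4c1d4_an: uniqueness for `-Δu = u - 1` in a half-space, in every dimension

`1 - cos x_N` is the only solution of `-Δu = u - 1` in the half-space `{x_N > 0}`, `u = 0` on the
boundary, which is nonnegative and bounded on every strip of finite width. -/

namespace Pool.Agent.Results.MP_e4c1d4_an.HalfSpaceUniqueness

/-- Let `N = n + 1 ≥ 1` and let the half-space be `{p ∈ ℝ^N : p_N > 0}`, where `p_N` is the last
coordinate.  Let `u` be continuous on the closed half-space and of class `C²` in the open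
half-space (in particular `u` may be any function which is `C²` up to the boundary), with
`-Δu = u - 1` in the open half-space, `u = 0` on the boundary, and `0 ≤ u ≤ C(M)` on every strip
`0 ≤ p_N ≤ M`.  Then `u(p) = 1 - cos p_N` on the closed half-space. -/
theorem result (n : ℕ) (u : EuclideanSpace ℝ (Fin (n + 1)) → ℝ)
    (hcont : ContinuousOn u {p | 0 ≤ p (Fin.last n)})
    (hC2 : ContDiffOn ℝ 2 u {p | 0 < p (Fin.last n)})
    (hpde : ∀ p : EuclideanSpace ℝ (Fin (n + 1)), 0 < p (Fin.last n) →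
      -(Laplacian.laplacian u p) = u p - 1)
    (hbd : ∀ p : EuclideanSpace ℝ (Fin (n + 1)), p (Fin.last n) = 0 → u p = 0)
    (hH : ∀ M : ℝ, 0 < M → ∃ C : ℝ, 0 < C ∧ ∀ p : EuclideanSpace ℝ (Fin (n + 1)),
      0 ≤ p (Fin.last n) → p (Fin.last n) ≤ M → 0 ≤ u p ∧ u p ≤ C) :
    ∀ p : EuclideanSpace ℝ (Fin (n + 1)), 0 ≤ p (Fin.last n) →
      u p = 1 - Real.cos (p (Fin.last n)) :=
  fun p hp => Pool.Agent.Q64.HS.Sol.unique ⟨hcont, hC2, hpde, hbd, hH⟩ p hp

end Pool.Agent.Results.MP_e4c1d4_an.HalfSpaceUniqueness
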